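import Pool.Agent.Y217.PB.Stm

/-! Task PB-D: separation -/

set_option autoImplicit false

universe u

namespace Pool.Agent.Y358.PB

open Set Topology Metric
open Pool.Agent.Helper775.Surf Pool.Agent.Helper775.Clo
open Pool.Agent.Y217.PB

theorem comp_clopen {M : Type u} [TopologicalSpace M] [LocallyPathConnectedSpace M] {Z : Set M}
    (hZ : IsClosed Z) {x z : M} (hz : z ∈ closure (connectedComponentIn Zᶜ x)) (hzZ : z ∉ Z) :
    z ∈ connectedComponentIn Zᶜ x := by
  have h1 : IsOpen (connectedComponentIn Zᶜ z) := hZ.isOpen_compl.connectedComponentIn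
  have h2 : z ∈ connectedComponentIn Zᶜ z := mem_connectedComponentIn hzZ
  obtain ⟨w, hw1, hw2⟩ := mem_closure_iff.1 hz _ h1 h2
  have e1 := connectedComponentIn_eq hw1
  have e2 := connectedComponentIn_eq hw2
  rw [e2, ← e1]
  exact h2

theorem sep : JSep.{u} := by
  intro M _ _ _ _ _ N f S Z x x' v t hZ hx hx' hne hv he ht hnull
  by_contra hcomp
  obtain ⟨s, hs⟩ := hnull
  obtain ⟨O, hO, hZO, hsO⟩ := triv_open hs
  have hUo : IsOpen (O ∩ ({x, x'}ᶜ : Set M)) :=
    hO.inter (Set.Finite.isClosed (by simp)).isOpen_compl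
  have hZU : Z ⊆ O ∩ ({x, x'}ᶜ : Set M) := by
    intro z hz
    refine ⟨hZO hz, ?_⟩
    rintro (rfl | h)
    · exact hx hz
    · rw [mem_singleton_iff] at h
      rw [h] at hz
      exact hx' hz
  have hC0 : IsOpen (connectedComponentIn Zᶜ x) := hZ.isOpen_compl.connectedComponentIn
  have hCeq : connectedComponentIn Zᶜ x \ (O ∩ ({x, x'}ᶜ : Set M)) =
      closure (connectedComponentIn Zᶜ x) \ (O ∩ ({x, x'}ᶜ : Set M)) := by
    apply Subset.antisymm
    · exact sdiff_subset_sdiff_left subset_closure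
    · rintro z ⟨hz, hzU⟩
      exact ⟨comp_clopen hZ hz (fun h => hzU (hZU h)), hzU⟩
  have hC : IsClosed (connectedComponentIn Zᶜ x \ (O ∩ ({x, x'}ᶜ : Set M))) := by
    rw [hCeq]
    exact isClosed_closure.sdiff hUo
  have hC' : IsClosed ((connectedComponentIn Zᶜ x)ᶜ \ (O ∩ ({x, x'}ᶜ : Set M))) :=
    hC0.isClosed_compl.sdiff hUo
  have hd : Disjoint (connectedComponentIn Zᶜ x \ (O ∩ ({x, x'}ᶜ : Set M)))
      ((connectedComponentIn Zᶜ x)ᶜ \ (O ∩ ({x, x'}ᶜ : Set M))) := by
    rw [Set.disjoint_left]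
    rintro z ⟨h1, _⟩ ⟨h2, _⟩
    exact h2 h1
  have hy : x ∈ connectedComponentIn Zᶜ x \ (O ∩ ({x, x'}ᶜ : Set M)) :=
    ⟨mem_connectedComponentIn hx, fun h => h.2 (Or.inl rfl)⟩
  have hy' : x' ∈ (connectedComponentIn Zᶜ x)ᶜ \ (O ∩ ({x, x'}ᶜ : Set M)) :=
    ⟨fun h => hcomp (connectedComponentIn_eq h), fun h => h.2 (Or.inr rfl)⟩
  refine pair_sep S hC hC' hd hy hy' hv he ht ?_
  refine ⟨s, hsO.mono ?_⟩
  intro z hz
  by_contra hzO
  apply hz
  by_cases h : z ∈ connectedComponentIn Zᶜ x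
  · exact Or.inl ⟨h, fun h' => hzO h'.1⟩
  · exact Or.inr ⟨h, fun h' => hzO h'.1⟩

theorem acycCompl : JAcycCompl.{u} := by
  intro M _ _ _ _ _ N f S Z hZ hac
  apply isPreconnected_of_forall_pair
  intro x hx x' hx'
  by_cases hne : x = x'
  · subst hne
    exact ⟨{x}, by simpa using hx, rfl, rfl, isPreconnected_singleton⟩
  · obtain ⟨v, hv, -, he, he'⟩ := pair_ex S.pt S.pun isOpen_univ isPreconnected_univ
      (Set.mem_univ x) (Set.mem_univ x') hne
    have hcoc : Coc Z v := hv.mono (by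
      intro z hz h
      rcases h with h | h
      · rw [h] at hz; exact hx hz
      · rw [mem_singleton_iff] at h
        rw [h] at hz; exact hx' hz)
    have hn : Null Z (v + 0) := by
      rw [add_zero]
      exact hac v hcoc
    have h := sep M N f S Z x x' v 0 hZ hx hx' hne hv he (coc_zero univ) hn
    refine ⟨connectedComponentIn Zᶜ x, connectedComponentIn_subset _ _,
      mem_connectedComponentIn hx, ?_, isPreconnected_connectedComponentIn⟩
    rw [h]
    exact mem_connectedComponentIn hx'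

end Pool.Agent.Y358.PB
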