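import Pool.Agent.Y217.PB.Stm
import Pool.Agent.Y358.PB.Sep

/-! Task PB-H: at least three edges at a component -/

set_option autoImplicit false

universe u

namespace Pool.Agent.Y358.PB

open Set Topology Metric
open Pool.Agent.Helper775.Surf Pool.Agent.Helper775.Clo
open Pool.Agent.Y217.PB

variable {M : Type u} [TopologicalSpace M] {ι κ : Type}

/-- the union of some vertices and edges -/
def AS (Γ : FGraph M ι κ) (S : Finset ι) (T : Finset κ) : Set M :=
  (⋃ i ∈ S, Γ.Z i) ∪ ⋃ k ∈ T, Γ.A k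

theorem mem_AS {Γ : FGraph M ι κ} {S : Finset ι} {T : Finset κ} {x : M} :
    x ∈ AS Γ S T ↔ (∃ i ∈ S, x ∈ Γ.Z i) ∨ ∃ k ∈ T, x ∈ Γ.A k := by
  simp only [AS, mem_union, mem_iUnion, exists_prop]

theorem AS_closed {Γ : FGraph M ι κ} (hg : Γ.Good) (S : Finset ι) (T : Finset κ) :
    IsClosed (AS Γ S T) :=
  (isClosed_biUnion_finset (fun i _ => (hg.fat i).closed)).union
    (isClosed_biUnion_finset (fun k _ => (hg.arc k).closed))

theorem pts_closed {Γ : FGraph M ι κ} [Finite ι] [Finite κ] (hg : Γ.Good) : IsClosed Γ.pts :=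
  (isClosed_iUnion_of_finite (fun i => (hg.fat i).closed)).union
    (isClosed_iUnion_of_finite (fun k => (hg.arc k).closed))

theorem mem_pts {Γ : FGraph M ι κ} {x : M} :
    x ∈ Γ.pts ↔ (∃ i, x ∈ Γ.Z i) ∨ ∃ k, x ∈ Γ.A k := by
  simp only [FGraph.pts, mem_union, mem_iUnion]

theorem acyc_verts [CompactSpace M] [T2Space M] (hU : JUnion.{u}) {Γ : FGraph M ι κ}
    (hg : Γ.Good) (S : Finset ι) : Acyc (AS Γ S ∅) := by
  classical
  induction S using Finset.induction_on with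
  | empty =>
    intro t _
    refine ⟨0, fun x hx => ?_⟩
    rw [mem_AS] at hx
    simp at hx
  | insert i S hi ih =>
    have e : AS Γ (insert i S) ∅ = Γ.Z i ∪ AS Γ S ∅ := by
      ext x
      rw [mem_union, mem_AS, mem_AS]
      simp
    rw [e]
    refine hU M _ _ (hg.fat i).closed (AS_closed hg _ _) (hg.fat i).acyc ih ?_
    have e2 : Γ.Z i ∩ AS Γ S ∅ = ∅ := by
      rw [eq_empty_iff_forall_notMem]
      rintro x ⟨h1, h2⟩
      rw [mem_AS] at h2
      rcases h2 with ⟨j, hj, hx⟩ | ⟨k, hk, _⟩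
      · have hne : i ≠ j := fun h => hi (h ▸ hj)
        exact Set.disjoint_left.1 (hg.disj i j hne) h1 hx
      · simp at hk
    rw [e2]
    exact isPreconnected_empty

/-- the endpoints of an edge with names -/
structure Ends (Γ : FGraph M ι κ) (b : κ) (i j : ι) (p q : M) : Prop where
  hp : p ∈ Γ.Z i
  hq : q ∈ Γ.Z j
  pA : p ∈ Γ.A b
  qA : q ∈ Γ.A b
  hne : i ≠ j
  only : ∀ i' x, x ∈ Γ.A b → x ∈ Γ.Z i' → x = p ∨ x = q

theorem ends0 {Γ : FGraph M ι κ} (hg : Γ.Good) (b : κ) :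
    Ends Γ b (Γ.i0 b) (Γ.i1 b) (Γ.p0 b) (Γ.p1 b) :=
  ⟨hg.m0 b, hg.m1 b, (hg.arc b).p_mem, (hg.arc b).q_mem, hg.loopless b,
    fun i' x h1 h2 => hg.inter b i' x h1 h2⟩

theorem ends1 {Γ : FGraph M ι κ} (hg : Γ.Good) (b : κ) :
    Ends Γ b (Γ.i1 b) (Γ.i0 b) (Γ.p1 b) (Γ.p0 b) :=
  ⟨hg.m1 b, hg.m0 b, (hg.arc b).q_mem, (hg.arc b).p_mem, (hg.loopless b).symm,
    fun i' x h1 h2 => (hg.inter b i' x h1 h2).symm⟩

theorem z_uniq {Γ : FGraph M ι κ} (hg : Γ.Good) {i j : ι} {x : M} (hi : x ∈ Γ.Z i)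
    (hj : x ∈ Γ.Z j) : i = j := by
  by_contra hne
  exact Set.disjoint_left.1 (hg.disj i j hne) hi hj

/-- a point of the edge `k` in the vertex `i` is an endpoint of `k` -/
theorem touch {Γ : FGraph M ι κ} (hg : Γ.Good) {k : κ} {i : ι} {x : M} (hk : x ∈ Γ.A k)
    (hi : x ∈ Γ.Z i) : i = Γ.i0 k ∨ i = Γ.i1 k := by
  rcases hg.inter k i x hk hi with h | h
  · left
    rw [h] at hi
    exact z_uniq hg hi (hg.m0 k)
  · right
    rw [h] at hi
    exact z_uniq hg hi (hg.m1 k)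

theorem acyc_leaf [CompactSpace M] [T2Space M] [DecidableEq ι] [DecidableEq κ] (hU : JUnion.{u})
    {Γ : FGraph M ι κ} (hg : Γ.Good) (hAc : ∀ k, Acyc (Γ.A k)) {S : Finset ι} {T : Finset κ}
    {b : κ} {i j : ι} {p q : M} (he : Ends Γ b i j p q) (hb : b ∈ T) (hi : i ∈ S) (hj : j ∈ S)
    (hleaf : ∀ k ∈ T, k ≠ b → i ≠ Γ.i0 k ∧ i ≠ Γ.i1 k)
    (hP : Acyc (AS Γ (S.erase i) (T.erase b))) : Acyc (AS Γ S T) := by
  have h1 : AS Γ (S.erase i) (T.erase b) ∩ Γ.A b = {q} := by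
    ext x
    rw [mem_inter_iff, mem_AS, mem_singleton_iff]
    constructor
    · rintro ⟨h | h, hxb⟩
      · obtain ⟨i', hi', hx⟩ := h
        rcases he.only i' x hxb hx with h | h
        · exfalso
          rw [h] at hx
          exact (Finset.mem_erase.1 hi').1 (z_uniq hg hx he.hp)
        · exact h
      · obtain ⟨k, hk, hx⟩ := h
        obtain ⟨hkb, hkT⟩ := Finset.mem_erase.1 hk
        obtain ⟨i'', hi''⟩ := hg.ee k b x hkb hx hxb
        rcases he.only i'' x hxb hi'' with h | h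
        · exfalso
          rw [h] at hi'' hx
          rcases touch hg hx he.hp with h' | h'
          · exact (hleaf k hkT hkb).1 h'
          · exact (hleaf k hkT hkb).2 h'
        · exact h
    · rintro rfl
      exact ⟨Or.inl ⟨j, Finset.mem_erase.2 ⟨he.hne.symm, hj⟩, he.hq⟩, he.qA⟩
  have h2 : Acyc (AS Γ (S.erase i) (T.erase b) ∪ Γ.A b) := by
    refine hU M _ _ (AS_closed hg _ _) (hg.arc b).closed hP (hAc b) ?_
    rw [h1]
    exact isPreconnected_singleton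
  have h3 : (AS Γ (S.erase i) (T.erase b) ∪ Γ.A b) ∩ Γ.Z i = {p} := by
    ext x
    rw [mem_inter_iff, mem_union, mem_AS, mem_singleton_iff]
    constructor
    · rintro ⟨(h | h) | h, hxi⟩
      · exfalso
        obtain ⟨i', hi', hx⟩ := h
        exact (Finset.mem_erase.1 hi').1 (z_uniq hg hx hxi)
      · exfalso
        obtain ⟨k, hk, hx⟩ := h
        obtain ⟨hkb, hkT⟩ := Finset.mem_erase.1 hk
        rcases touch hg hx hxi with h' | h'
        · exact (hleaf k hkT hkb).1 h'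
        · exact (hleaf k hkT hkb).2 h'
      · rcases he.only i x h hxi with h' | h'
        · exact h'
        · exfalso
          rw [h'] at hxi
          exact he.hne (z_uniq hg hxi he.hq)
    · rintro rfl
      exact ⟨Or.inr he.pA, he.hp⟩
  have h4 : AS Γ S T = (AS Γ (S.erase i) (T.erase b) ∪ Γ.A b) ∪ Γ.Z i := by
    ext x
    rw [mem_union, mem_union, mem_AS, mem_AS]
    constructor
    · rintro (⟨i', hi', hx⟩ | ⟨k, hk, hx⟩)
      · by_cases h : i' = i
        · subst h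
          exact Or.inr hx
        · exact Or.inl (Or.inl (Or.inl ⟨i', Finset.mem_erase.2 ⟨h, hi'⟩, hx⟩))
      · by_cases h : k = b
        · subst h
          exact Or.inl (Or.inr hx)
        · exact Or.inl (Or.inl (Or.inr ⟨k, Finset.mem_erase.2 ⟨h, hk⟩, hx⟩))
    · rintro (((⟨i', hi', hx⟩ | ⟨k, hk, hx⟩) | hx) | hx)
      · exact Or.inl ⟨i', (Finset.mem_erase.1 hi').2, hx⟩
      · exact Or.inr ⟨k, (Finset.mem_erase.1 hk).2, hx⟩
      · exact Or.inr ⟨b, hb, hx⟩
      · exact Or.inl ⟨i, hi, hx⟩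
  rw [h4]
  refine hU M _ _ ((AS_closed hg _ _).union (hg.arc b).closed) (hg.fat i).closed h2
    (hg.fat i).acyc ?_
  rw [h3]
  exact isPreconnected_singleton

/-- the combinatorial part -/
theorem leaf_or_tri {Γ : FGraph M ι κ} (hg : Γ.Good) {T : Finset κ} (hT : T.card ≤ 3)
    (hne : T.Nonempty) :
    (∃ b ∈ T, ∃ i, (i = Γ.i0 b ∨ i = Γ.i1 b) ∧ ∀ k ∈ T, k ≠ b → i ≠ Γ.i0 k ∧ i ≠ Γ.i1 k) ∨
    ∃ k₁ k₂ k₃ : κ, (T : Set κ) = {k₁, k₂, k₃} ∧ Γ.Tri k₁ k₂ k₃ := by
  classical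
  by_contra hcon
  rw [not_or] at hcon
  obtain ⟨hno, htri⟩ := hcon
  have hno' : ∀ b ∈ T, ∀ i, (i = Γ.i0 b ∨ i = Γ.i1 b) →
      ∃ k ∈ T, k ≠ b ∧ (i = Γ.i0 k ∨ i = Γ.i1 k) := by
    intro b hb i hi
    by_contra hc
    apply hno
    refine ⟨b, hb, i, hi, fun k hk hkb => ?_⟩
    constructor
    · intro h
      exact hc ⟨k, hk, hkb, Or.inl h⟩
    · intro h
      exact hc ⟨k, hk, hkb, Or.inr h⟩
  -- if `x ≠ y` are both endpoints of `k` then the pair is `{x, y}`
  have hpair : ∀ (k : κ) (x y : ι), x ≠ y → (x = Γ.i0 k ∨ x = Γ.i1 k) →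
      (y = Γ.i0 k ∨ y = Γ.i1 k) → ({Γ.i0 k, Γ.i1 k} : Set ι) = {x, y} := by
    intro k x y hxy hx hy
    rcases hx with hx | hx <;> rcases hy with hy | hy
    · exact absurd (hx.trans hy.symm) hxy
    · rw [hx, hy]
    · rw [hx, hy]
      exact Set.pair_comm _ _
    · exact absurd (hx.trans hy.symm) hxy
  obtain ⟨b, hb⟩ := hne
  obtain ⟨k, hk, hkb, hkp⟩ := hno' b hb (Γ.i0 b) (Or.inl rfl)
  obtain ⟨l, hl, hlb, hlq⟩ := hno' b hb (Γ.i1 b) (Or.inr rfl)
  have hkl : k ≠ l := by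
    intro h
    rw [← h] at hlq
    exact hkb (hg.simple k b (hpair k _ _ (hg.loopless b) hkp hlq))
  have hTeq : T = {b, k, l} := by
    symm
    apply Finset.eq_of_subset_of_card_le
    · intro x hx
      simp only [Finset.mem_insert, Finset.mem_singleton] at hx
      rcases hx with rfl | rfl | rfl <;> assumption
    · rw [Finset.card_eq_three.2 ⟨b, k, l, hkb.symm, hlb.symm, hkl, rfl⟩]
      exact hT
  -- the other endpoint of `k`
  obtain ⟨r, hr, hrp⟩ : ∃ r, (r = Γ.i0 k ∨ r = Γ.i1 k) ∧ r ≠ Γ.i0 b := by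
    rcases hkp with h | h
    · exact ⟨Γ.i1 k, Or.inr rfl, by rw [h]; exact (hg.loopless k).symm⟩
    · exact ⟨Γ.i0 k, Or.inl rfl, by rw [h]; exact hg.loopless k⟩
  have hrq : r ≠ Γ.i1 b := by
    intro h
    rw [h] at hr
    exact hkb (hg.simple k b (hpair k _ _ (hg.loopless b) hkp hr))
  obtain ⟨m, hm, hmk, hmr⟩ := hno' k hk r hr
  have hml : m = l := by
    rw [hTeq] at hm
    simp only [Finset.mem_insert, Finset.mem_singleton] at hm
    rcases hm with h | h | h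
    · exfalso
      rw [h] at hmr
      rcases hmr with h' | h'
      · exact hrp h'
      · exact hrq h'
    · exact absurd h hmk
    · exact h
  rw [hml] at hmr
  apply htri
  refine ⟨b, l, k, ?_, Γ.i0 b, Γ.i1 b, r, hg.loopless b, hrq.symm, hrp, rfl,
    hpair l _ _ hrq.symm hlq hmr, hpair k _ _ hrp hr hkp⟩
  rw [hTeq]
  ext x
  simp only [Finset.coe_insert, Finset.coe_singleton, mem_insert_iff, mem_singleton_iff]
  tauto

theorem tri_card {Γ : FGraph M ι κ} {T : Finset κ} {k₁ k₂ k₃ : κ}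
    (hT : (T : Set κ) = {k₁, k₂, k₃}) (ht : Γ.Tri k₁ k₂ k₃) : T.card = 3 := by
  classical
  obtain ⟨i₁, i₂, i₃, h12, h23, h31, e1, e2, e3⟩ := ht
  have n12 : k₁ ≠ k₂ := by
    intro h
    rw [h, e2] at e1
    have h1 : i₁ ∈ ({i₂, i₃} : Set ι) := by rw [e1]; simp
    rcases h1 with h1 | h1
    · exact h12 h1
    · exact h31 h1.symm
  have n23 : k₂ ≠ k₃ := by
    intro h
    rw [h, e3] at e2
    have h1 : i₂ ∈ ({i₃, i₁} : Set ι) := by rw [e2]; simp
    rcases h1 with h1 | h1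
    · exact h23 h1
    · exact h12 h1.symm
  have n13 : k₁ ≠ k₃ := by
    intro h
    rw [h, e3] at e1
    have h1 : i₂ ∈ ({i₃, i₁} : Set ι) := by rw [e1]; simp
    rcases h1 with h1 | h1
    · exact h23 h1
    · exact h12 h1.symm
  have e : T = {k₁, k₂, k₃} := by
    apply Finset.coe_injective
    rw [hT]
    simp
  rw [e]
  exact Finset.card_eq_three.2 ⟨k₁, k₂, k₃, n12, n13, n23, rfl⟩

theorem acyc_small [CompactSpace M] [T2Space M] (hU : JUnion.{u})
    {Γ : FGraph M ι κ} (hg : Γ.Good) (hAc : ∀ k, Acyc (Γ.A k)) :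
    ∀ (n : ℕ) (S : Finset ι) (T : Finset κ), T.card = n → T.card ≤ 3 →
      (∀ k ∈ T, Γ.i0 k ∈ S ∧ Γ.i1 k ∈ S) →
      (¬ ∃ k₁ k₂ k₃ : κ, (T : Set κ) = {k₁, k₂, k₃} ∧ Γ.Tri k₁ k₂ k₃) → Acyc (AS Γ S T) := by
  classical
  intro n
  induction n with
  | zero =>
    intro S T hT _ _ _
    rw [Finset.card_eq_zero] at hT
    rw [hT]
    exact acyc_verts hU hg S
  | succ n ih =>
    intro S T hT hT3 hS hno
    have hne : T.Nonempty := by
      rw [← Finset.card_pos, hT]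
      exact Nat.succ_pos n
    rcases leaf_or_tri hg hT3 hne with ⟨b, hb, i, hi, hleaf⟩ | h
    · have hcard : (T.erase b).card = n := by
        rw [Finset.card_erase_of_mem hb, hT]
        rfl
      have hP : Acyc (AS Γ (S.erase i) (T.erase b)) := by
        apply ih _ _ hcard
        · omega
        · intro k hk
          obtain ⟨hkb, hkT⟩ := Finset.mem_erase.1 hk
          have h1 := hleaf k hkT hkb
          have h2 := hS k hkT
          exact ⟨Finset.mem_erase.2 ⟨h1.1.symm, h2.1⟩, Finset.mem_erase.2 ⟨h1.2.symm, h2.2⟩⟩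
        · rintro ⟨k₁, k₂, k₃, h1, h2⟩
          have h3 := tri_card h1 h2
          omega
      rcases hi with hi | hi
      · rw [hi] at hleaf hP
        exact acyc_leaf hU hg hAc (ends0 hg b) hb (hS b hb).1 (hS b hb).2 hleaf hP
      · rw [hi] at hleaf hP
        exact acyc_leaf hU hg hAc (ends1 hg b) hb (hS b hb).2 (hS b hb).1 hleaf hP
    · exact absurd h hno

theorem three (hU : JUnion.{u}) (hA : JArc.{u}) (hC : JAcycCompl.{u}) : JThree.{u} := by
  classical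
  intro M _ _ _ _ _ _ N f S ι κ _ _ Γ hg C hCc T hadj hT3 hTlt
  by_contra hno
  have harc : ∀ k, _ := fun k => hA M (Γ.A k) (Γ.p0 k) (Γ.p1 k) (hg.arc k)
  have hac : Acyc (AS Γ Finset.univ T) :=
    acyc_small hU hg (fun k => (harc k).2.2.1) _ _ T rfl hT3
      (fun k _ => ⟨Finset.mem_univ _, Finset.mem_univ _⟩) hno
  have hcl : IsClosed (AS Γ Finset.univ T) := AS_closed hg _ _
  have hpre : IsPreconnected (AS Γ Finset.univ T)ᶜ := hC M N f S _ hcl hac
  have hptc : IsClosed Γ.pts := pts_closed hg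
  have hsub : AS Γ Finset.univ T ⊆ Γ.pts := by
    intro x hx
    rw [mem_AS] at hx
    rw [mem_pts]
    rcases hx with ⟨i, _, h⟩ | ⟨k, _, h⟩
    · exact Or.inl ⟨i, h⟩
    · exact Or.inr ⟨k, h⟩
  obtain ⟨x, hx, hCx⟩ := hCc
  have hCo : IsOpen C := by
    rw [hCx]
    exact hptc.isOpen_compl.connectedComponentIn
  have hxC : x ∈ C := by
    rw [hCx]
    exact mem_connectedComponentIn hx
  have hCsub : C ⊆ Γ.ptsᶜ := by
    rw [hCx]
    exact connectedComponentIn_subset _ _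
  have hkey : (AS Γ Finset.univ T)ᶜ ⊆ C := by
    refine hpre.subset_of_closure_inter_subset hCo ⟨x, fun h => hx (hsub h), hxC⟩ ?_
    rintro z ⟨hz, hzA⟩
    by_cases hzp : z ∈ Γ.pts
    · exfalso
      apply hzA
      rw [mem_AS]
      by_cases hzi : ∃ i, z ∈ Γ.Z i
      · obtain ⟨i, hi⟩ := hzi
        exact Or.inl ⟨i, Finset.mem_univ _, hi⟩
      · rw [mem_pts] at hzp
        rcases hzp with h | ⟨k, hk⟩
        · exact absurd h hzi
        · right
          refine ⟨k, hadj k ⟨z, hz, hk, ?_⟩, hk⟩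
          rintro (h | h)
          · apply hzi
            exact ⟨Γ.i0 k, by rw [h]; exact hg.m0 k⟩
          · apply hzi
            rw [mem_singleton_iff] at h
            exact ⟨Γ.i1 k, by rw [h]; exact hg.m1 k⟩
    · rw [hCx] at hz ⊢
      exact comp_clopen hptc hz hzp
  -- an edge outside `T`
  obtain ⟨l, hl⟩ : ∃ l, l ∉ T := by
    by_contra hall
    push Not at hall
    have h1 : T = Finset.univ := Finset.eq_univ_iff_forall.2 hall
    rw [h1, Finset.card_univ] at hTlt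
    exact lt_irrefl _ hTlt
  have hopn : (Γ.A l \ {Γ.p0 l, Γ.p1 l}).Nonempty := by
    have h1 := (harc l).2.2.2.2.1
    have h2 := h1 (hg.arc l).p_mem
    exact closure_nonempty_iff.1 ⟨_, h2⟩
  obtain ⟨z, hzA, hzn⟩ := hopn
  have hz1 : ∀ i, z ∉ Γ.Z i := by
    intro i hi
    apply hzn
    rcases hg.inter l i z hzA hi with h | h
    · exact Or.inl h
    · exact Or.inr h
  have hz2 : z ∈ (AS Γ Finset.univ T)ᶜ := by
    intro h
    rw [mem_AS] at h
    rcases h with ⟨i, _, h⟩ | ⟨k, hk, h⟩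
    · exact hz1 i h
    · have hkl : k ≠ l := fun h' => hl (h' ▸ hk)
      obtain ⟨i, hi⟩ := hg.ee k l z hkl h hzA
      exact hz1 i hi
  exact hCsub (hkey hz2) (mem_pts.2 (Or.inr ⟨l, hzA⟩))

end Pool.Agent.Y358.PB
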